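import Mathlib

set_option autoImplicit false
open Cardinal

universe u

namespace Pool.Agent.Results.MP_dc3585_lc.BothClasses

section Good

/-- Every uncountable subset of a well-order contains an uncountable subset with countable
initial segments. -/
lemma exists_good {α : Type u} (P : α → α → Prop) [IsWellOrder α P] (A : Set α)
    (hA : ¬ A.Countable) :
    ∃ A' ⊆ A, ¬ A'.Countable ∧ ∀ a ∈ A', {x | x ∈ A' ∧ P x a}.Countable := by
  let A' : Set α := {a | a ∈ A ∧ {x | x ∈ A ∧ P x a}.Countable}
  refine ⟨A', fun a ha => ha.1, ?_, ?_⟩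
  · by_cases hne : (A \ A').Nonempty
    · have wf : WellFounded P := IsWellFounded.wf
      have hmem := WellFounded.min_mem wf _ hne
      set t := WellFounded.min wf _ hne with ht
      intro hc
      apply hmem.2
      refine ⟨hmem.1, hc.mono ?_⟩
      intro s hs
      by_contra hs0
      have : ¬ P s t := by
        rw [ht]
        exact WellFounded.not_lt_min wf (A \ A') (x := s) ⟨hs.1, hs0⟩
      exact this hs.2
    · have hsub : A ⊆ A' := by
        intro a ha
        by_contra h
        exact hne ⟨a, ha, h⟩
      exact fun hc => hA (hc.mono hsub)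
  · intro a ha
    have hss : {x | x ∈ A' ∧ P x a} ⊆ {x | x ∈ A ∧ P x a} := fun x hx => ⟨hx.1.1, hx.2⟩
    exact ha.2.mono hss

lemma bool_not {a b : Bool} (h : a ≠ b) : a = !b := by
  cases a <;> cases b <;> simp at h <;> rfl

lemma bool_cases {a b : Bool} (e : Bool) (h : a ≠ b) : e = b ∨ e = a := by
  cases a <;> cases b <;> cases e <;> simp at h <;> simp

end Good

section Core

variable {K : Type u} [LinearOrder K] [WellFoundedLT K]

/-- `x` and `y` first differ at `k`, where `x` takes the value `e`. -/
def Sp (e : Bool) (k : K) (x y : K → Bool) : Prop :=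
  (∀ j < k, x j = y j) ∧ x k = e ∧ y k = !e

omit [WellFoundedLT K] in
lemma sp_flip {e : Bool} {k : K} {x y : K → Bool} (h : Sp e k x y) : Sp (!e) k y x :=
  ⟨fun j hj => (h.1 j hj).symm, h.2.2, by rw [h.2.1]; simp⟩

omit [WellFoundedLT K] in
lemma sp_unique {e : Bool} {k k' : K} {x y : K → Bool} (h : Sp e k x y) (h' : Sp e k' x y) :
    k = k' := by
  rcases lt_trichotomy k k' with hlt | heq | hlt
  · have := h'.1 k hlt
    rw [h.2.1, h.2.2] at this
    cases e <;> simp at this
  · exact heq
  · have := h.1 k' hlt
    rw [h'.2.1, h'.2.2] at this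
    cases e <;> simp at this

omit [WellFoundedLT K] in
lemma sp_asymm {e : Bool} {k k' : K} {x y : K → Bool} (h : Sp e k x y) (h' : Sp e k' y x) :
    False := by
  rcases lt_trichotomy k k' with hlt | heq | hlt
  · have := h'.1 k hlt
    rw [h.2.1, h.2.2] at this
    cases e <;> simp at this
  · subst heq
    have h1 := h.2.1
    rw [h'.2.2] at h1
    cases e <;> simp at h1
  · have := h.1 k' hlt
    rw [h'.2.1, h'.2.2] at this
    cases e <;> simp at this

omit [WellFoundedLT K] in
lemma sp_irrefl {e : Bool} {k : K} {x : K → Bool} (h : Sp e k x x) : False := sp_asymm h h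

lemma sp_exists {x y : K → Bool} (h : x ≠ y) : (∃ k, Sp false k x y) ∨ (∃ k, Sp false k y x) := by
  have hne : {k | x k ≠ y k}.Nonempty := by
    by_contra hcon
    rw [Set.not_nonempty_iff_eq_empty] at hcon
    apply h
    funext k
    by_contra hk
    have : k ∈ {k | x k ≠ y k} := hk
    rw [hcon] at this
    exact this
  have hmem := WellFounded.min_mem (wellFounded_lt (α := K)) _ hne
  set k := WellFounded.min (wellFounded_lt (α := K)) _ hne with hk
  have hlt : ∀ j < k, x j = y j := by
    intro j hj
    by_contra hj2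
    have : ¬ j < k := by
      rw [hk]
      exact WellFounded.not_lt_min (wellFounded_lt (α := K)) {k | x k ≠ y k} (x := j) hj2
    exact this hj
  have hmem' : x k ≠ y k := hmem
  cases hx : x k with
  | false =>
    left
    refine ⟨k, hlt, hx, ?_⟩
    cases hy : y k with
    | false => exact absurd (hx.trans hy.symm) hmem'
    | true => rfl
  | true =>
    right
    refine ⟨k, fun j hj => (hlt j hj).symm, ?_, ?_⟩
    · cases hy : y k with
      | false => rfl
      | true => exact absurd (hx.trans hy.symm) hmem'
    · rw [hx]; rfl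

/-- The defining condition of class one; `P` is a well-order of the points, `r` an injection of
the levels into the reals. -/
def T1 (P : (K → Bool) → (K → Bool) → Prop) (r : K → ℝ) (x y z : K → Bool) : Prop :=
  ∃ k l, k < l ∧ ((∃ e, Sp e k x y ∧ Sp e l y z ∧ P x y ∧ P y z ∧ r k < r l) ∨
    (Sp true k x y ∧ Sp true l y z ∧ P y x ∧ P z y))

open Classical in
/-- The colouring of triples. -/
noncomputable def col (P : (K → Bool) → (K → Bool) → Prop) (r : K → ℝ)
    (t : Finset (K → Bool)) : Fin 2 :=
  if ∃ x y z, t = {x, y, z} ∧ T1 P r x y z then 1 else 0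

omit [WellFoundedLT K] in
open Classical in
lemma hom0 (P : (K → Bool) → (K → Bool) → Prop) (r : K → ℝ) (Y : Finset (K → Bool))
    (h : ∀ x ∈ Y, ∀ y ∈ Y, ∀ z ∈ Y, ¬ T1 P r x y z) : ∀ t ⊆ Y, col P r t = 0 := by
  intro t ht
  unfold col
  rw [if_neg]
  rintro ⟨x, y, z, rfl, hT⟩
  exact h x (ht (by simp)) y (ht (by simp)) z (ht (by simp)) hT

omit [WellFoundedLT K] in
open Classical in
lemma col_one (P : (K → Bool) → (K → Bool) → Prop) (r : K → ℝ) {x y z : K → Bool}
    (h : T1 P r x y z) : col P r {x, y, z} = 1 := by
  unfold col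
  rw [if_pos ⟨x, y, z, rfl, h⟩]

open Classical in
lemma sort_lex (t : Finset (K → Bool)) (ht : t.card = 3) :
    ∃ x y z, t = {x, y, z} ∧ ∃ k l, Sp false k x y ∧ Sp false l y z := by
  obtain ⟨a, b, c, hab, hac, hbc, rfl⟩ := Finset.card_eq_three.1 ht
  rcases sp_exists hab with ⟨k1, h1⟩ | ⟨k1, h1⟩ <;> rcases sp_exists hbc with ⟨k2, h2⟩ | ⟨k2, h2⟩ <;>
    rcases sp_exists hac with ⟨k3, h3⟩ | ⟨k3, h3⟩
  · exact ⟨a, b, c, rfl, k1, k2, h1, h2⟩
  · exact ⟨c, a, b, by ext w; simp only [Finset.mem_insert, Finset.mem_singleton]; tauto,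
      k3, k1, h3, h1⟩
  · exact ⟨a, c, b, by ext w; simp only [Finset.mem_insert, Finset.mem_singleton]; tauto,
      k3, k2, h3, h2⟩
  · exact ⟨c, a, b, by ext w; simp only [Finset.mem_insert, Finset.mem_singleton]; tauto,
      k3, k1, h3, h1⟩
  · exact ⟨b, a, c, by ext w; simp only [Finset.mem_insert, Finset.mem_singleton]; tauto,
      k1, k3, h1, h3⟩
  · exact ⟨b, c, a, by ext w; simp only [Finset.mem_insert, Finset.mem_singleton]; tauto,
      k2, k3, h2, h3⟩
  · exact ⟨b, a, c, by ext w; simp only [Finset.mem_insert, Finset.mem_singleton]; tauto,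
      k1, k3, h1, h3⟩
  · exact ⟨c, b, a, by ext w; simp only [Finset.mem_insert, Finset.mem_singleton]; tauto,
      k2, k1, h2, h1⟩

open Classical in
omit [WellFoundedLT K] in
lemma sort_index {β : Type u} (x : K → β) (Z : Finset K)
    (t : Finset β) (htZ : t ⊆ Z.image x) (ht : t.card = 3) :
    ∃ a ∈ Z, ∃ b ∈ Z, ∃ c ∈ Z, a < b ∧ b < c ∧ t = {x a, x b, x c} := by
  obtain ⟨p, q, s, hpq, hps, hqs, rfl⟩ := Finset.card_eq_three.1 ht
  have hp := htZ (show p ∈ ({p, q, s} : Finset β) by simp)
  have hq := htZ (show q ∈ ({p, q, s} : Finset β) by simp)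
  have hs := htZ (show s ∈ ({p, q, s} : Finset β) by simp)
  obtain ⟨a, ha, rfl⟩ := Finset.mem_image.1 hp
  obtain ⟨b, hb, rfl⟩ := Finset.mem_image.1 hq
  obtain ⟨c, hc, rfl⟩ := Finset.mem_image.1 hs
  have hab : a ≠ b := fun h => hpq (by rw [h])
  have hac : a ≠ c := fun h => hps (by rw [h])
  have hbc : b ≠ c := fun h => hqs (by rw [h])
  rcases lt_or_gt_of_ne hab with h1 | h1 <;> rcases lt_or_gt_of_ne hbc with h2 | h2 <;>
    rcases lt_or_gt_of_ne hac with h3 | h3
  · exact ⟨a, ha, b, hb, c, hc, h1, h2, rfl⟩
  · exact absurd (h1.trans h2) (lt_asymm h3)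
  · exact ⟨a, ha, c, hc, b, hb, h3, h2,
      by ext w; simp only [Finset.mem_insert, Finset.mem_singleton]; tauto⟩
  · exact ⟨c, hc, a, ha, b, hb, h3, h1,
      by ext w; simp only [Finset.mem_insert, Finset.mem_singleton]; tauto⟩
  · exact ⟨b, hb, a, ha, c, hc, h1, h3,
      by ext w; simp only [Finset.mem_insert, Finset.mem_singleton]; tauto⟩
  · exact ⟨b, hb, c, hc, a, ha, h2, h3,
      by ext w; simp only [Finset.mem_insert, Finset.mem_singleton]; tauto⟩
  · exact absurd (h2.trans h1) (lt_asymm h3)
  · exact ⟨c, hc, b, hb, a, ha, h2, h1,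
      by ext w; simp only [Finset.mem_insert, Finset.mem_singleton]; tauto⟩

/-- Points of `A` agreeing with `b` up to and including `k`. -/
def N (A : Set (K → Bool)) (b : K → Bool) (k : K) : Set (K → Bool) :=
  {x | x ∈ A ∧ ∀ j ≤ k, x j = b j}

/-- Splitting property: every big node has two big incomparable extensions. -/
def Splits (A : Set (K → Bool)) : Prop :=
  ∀ (b : K → Bool) (k : K), ¬ (N A b k).Countable →
    ∃ (c : K → Bool) (l : K), k < l ∧ (∀ j ≤ k, c j = b j) ∧
      ∀ e : Bool, ¬ (N A (Function.update c l e) l).Countable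

/-- If some big node does not split then there is an uncountable comb. -/
lemma exists_comb (A : Set (K → Bool)) (h : ¬ Splits A) :
    ∃ (b : K → Bool) (L : Set K) (x : K → (K → Bool)), ¬ L.Countable ∧
      ∀ l ∈ L, x l ∈ A ∧ (∀ j < l, x l j = b j) ∧ x l l ≠ b l := by
  classical
  unfold Splits at h
  push Not at h
  obtain ⟨b0, k0, hbig, hns⟩ := h
  -- the branch
  let b : K → Bool := fun j => if j ≤ k0 then b0 j else
    decide (∃ c : K → Bool, (∀ i ≤ k0, c i = b0 i) ∧
      ¬ (N A (Function.update c j true) j).Countable)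
  have hb0 : ∀ j ≤ k0, b j = b0 j := by
    intro j hj
    simp only [b]
    rw [if_pos hj]
  have hNmono : ∀ (c : K → Bool) (i j : K), i ≤ j → N A c j ⊆ N A c i :=
    fun c i j hij x hx => ⟨hx.1, fun m hm => hx.2 m (hm.trans hij)⟩
  have claim : ∀ (c : K → Bool) (l : K), (∀ i ≤ k0, c i = b0 i) → ¬ (N A c l).Countable →
      ∀ j ≤ l, b j = c j := by
    intro c l hc hN j hj
    by_cases hjk : j ≤ k0
    · rw [hb0 j hjk, hc j hjk]
    · have hNj : ¬ (N A c j).Countable := fun hh => hN (hh.mono (hNmono c j l hj))
      have hbj : b j = decide (∃ c : K → Bool, (∀ i ≤ k0, c i = b0 i) ∧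
          ¬ (N A (Function.update c j true) j).Countable) := by
        simp only [b]
        rw [if_neg hjk]
      cases hcj : c j with
      | true =>
        rw [hbj, decide_eq_true_iff]
        refine ⟨c, hc, ?_⟩
        rw [← hcj, Function.update_eq_self]
        exact hNj
      | false =>
        rw [hbj, decide_eq_false_iff_not]
        rintro ⟨c2, hc2, hN2⟩
        set c3 := Function.update c2 j true with hc3
        have hc3k : ∀ i ≤ k0, c3 i = b0 i := by
          intro i hi
          have hij : i ≠ j := fun he => hjk (he ▸ hi)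
          rw [hc3, Function.update_of_ne hij]
          exact hc2 i hi
        have hc3j : c3 j = true := by rw [hc3, Function.update_self]
        have hne : {i | c3 i ≠ c i}.Nonempty := ⟨j, by
          show c3 j ≠ c j
          rw [hc3j, hcj]; simp⟩
        have hmem := WellFounded.min_mem (wellFounded_lt (α := K)) _ hne
        set i := WellFounded.min (wellFounded_lt (α := K)) _ hne with hi
        have hmin : ∀ m < i, c3 m = c m := by
          intro m hm
          by_contra hm2
          have : ¬ m < i := by
            rw [hi]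
            exact WellFounded.not_lt_min (wellFounded_lt (α := K)) {i | c3 i ≠ c i} (x := m) hm2
          exact this hm
        have hij : i ≤ j := by
          by_contra hlt
          push Not at hlt
          have := hmin j hlt
          rw [hc3j, hcj] at this
          simp at this
        have hik : k0 < i := by
          by_contra hle
          push Not at hle
          exact hmem ((hc3k i hle).trans (hc i hle).symm)
        obtain ⟨e, he⟩ := hns c i hik hc
        have hcases : e = c i ∨ e = c3 i := bool_cases e hmem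
        rcases hcases with h1 | h1
        · rw [h1, Function.update_eq_self] at he
          exact hNj (he.mono (hNmono c i j hij))
        · apply hN2
          refine he.mono ?_
          intro x hx
          refine ⟨hx.1, fun m hm => ?_⟩
          rcases lt_or_eq_of_le hm with hlt | heq
          · rw [Function.update_of_ne hlt.ne, ← hmin m hlt]
            exact hx.2 m (hm.trans hij)
          · rw [heq, Function.update_self, h1]
            exact hx.2 i hij
  -- the leaving sets
  let Lv : K → Set (K → Bool) := fun l => {x | x ∈ N A b0 k0 ∧ (∀ j < l, x j = b j) ∧ x l ≠ b l}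
  have hLv : ∀ l, (Lv l).Countable := by
    intro l
    by_cases hl : l ≤ k0
    · have : Lv l = ∅ := by
        rw [Set.eq_empty_iff_forall_notMem]
        intro x hx
        exact hx.2.2 ((hx.1.2 l hl).trans (hb0 l hl).symm)
      rw [this]
      exact Set.countable_empty
    · by_contra hcon
      have h1 : ¬ (N A (Function.update b l (!b l)) l).Countable := by
        intro hh
        apply hcon
        refine hh.mono ?_
        intro x hx
        refine ⟨hx.1.1, fun j hj => ?_⟩
        rcases lt_or_eq_of_le hj with hlt | heq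
        · rw [Function.update_of_ne hlt.ne]
          exact hx.2.1 j hlt
        · rw [heq, Function.update_self]
          exact bool_not hx.2.2
      have h2 := claim (Function.update b l (!b l)) l (by
        intro i hi
        have hil : i ≠ l := fun he => hl (he ▸ hi)
        rw [Function.update_of_ne hil]
        exact hb0 i hi) h1 l le_rfl
      rw [Function.update_self] at h2
      exact absurd h2 (by cases b l <;> simp)
  let L : Set K := {l | (Lv l).Nonempty}
  have hL : ¬ L.Countable := by
    intro hLc
    apply hbig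
    have hcount : ({b} ∪ ⋃ l ∈ L, Lv l).Countable :=
      (Set.countable_singleton b).union (hLc.biUnion (fun l _ => hLv l))
    refine hcount.mono ?_
    intro x hx
    by_cases hxb : x = b
    · exact Or.inl hxb
    · right
      have hne : {i | x i ≠ b i}.Nonempty := by
        by_contra hcon
        rw [Set.not_nonempty_iff_eq_empty] at hcon
        apply hxb
        funext k
        by_contra hk
        have : k ∈ {i | x i ≠ b i} := hk
        rw [hcon] at this
        exact this
      have hmem := WellFounded.min_mem (wellFounded_lt (α := K)) _ hne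
      set i := WellFounded.min (wellFounded_lt (α := K)) _ hne with hi
      have hmin : ∀ m < i, x m = b m := by
        intro m hm
        by_contra hm2
        have : ¬ m < i := by
          rw [hi]
          exact WellFounded.not_lt_min (wellFounded_lt (α := K)) {i | x i ≠ b i} (x := m) hm2
        exact this hm
      have hxL : x ∈ Lv i := ⟨hx, hmin, hmem⟩
      exact Set.mem_biUnion (show i ∈ L from ⟨x, hxL⟩) hxL
  let X : K → (K → Bool) := fun l => if hl : (Lv l).Nonempty then hl.choose else b
  refine ⟨b, L, X, hL, ?_⟩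
  intro l hl
  have hX : X l = (show (Lv l).Nonempty from hl).choose := by
    simp only [X]
    rw [dif_pos (show (Lv l).Nonempty from hl)]
  have hspec := (show (Lv l).Nonempty from hl).choose_spec
  rw [hX]
  exact ⟨hspec.1.1, hspec.2.1, hspec.2.2⟩

omit [LinearOrder K] [WellFoundedLT K] in
/-- In an uncountable index set some index has uncountably many larger real labels. -/
lemma exists_many_above (r : K → ℝ) (hr : Function.Injective r) (M : Set K)
    (hM : ¬ M.Countable) : ∃ a ∈ M, ¬ {b | b ∈ M ∧ r a < r b}.Countable := by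
  classical
  by_contra hcon
  push Not at hcon
  apply hM
  let g : ℚ → Set K := fun q =>
    if h : ∃ a ∈ M, r a < q then {b | b ∈ M ∧ r h.choose < r b} else ∅
  have hg : ∀ q, (g q).Countable := by
    intro q
    simp only [g]
    split_ifs with h
    · exact hcon _ h.choose_spec.1
    · exact Set.countable_empty
  have hmin : {b | b ∈ M ∧ ∀ a ∈ M, r b ≤ r a}.Countable := by
    apply Set.Subsingleton.countable
    intro b hb c hc
    exact hr (le_antisymm (hb.2 c hc.1) (hc.2 b hb.1))
  have hcount : ({b | b ∈ M ∧ ∀ a ∈ M, r b ≤ r a} ∪ ⋃ q, g q).Countable :=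
    hmin.union (Set.countable_iUnion hg)
  refine hcount.mono ?_
  intro b hb
  by_cases hall : ∀ a ∈ M, r b ≤ r a
  · exact Or.inl ⟨hb, hall⟩
  · right
    push Not at hall
    obtain ⟨a, ha, hab⟩ := hall
    obtain ⟨q, hq1, hq2⟩ := exists_rat_btwn hab
    have hex : ∃ a ∈ M, r a < q := ⟨a, ha, hq1⟩
    refine Set.mem_iUnion.2 ⟨q, ?_⟩
    simp only [g]
    rw [dif_pos hex]
    exact ⟨hb, hex.choose_spec.2.trans hq2⟩

omit [WellFoundedLT K] in
/-- Finite index sets along which everything increases. -/
lemma exists_increasing (P : (K → Bool) → (K → Bool) → Prop) (r : K → ℝ)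
    (hr : Function.Injective r) (x : K → (K → Bool)) (L : Set K)
    (hL1 : ∀ a ∈ L, {b | b ∈ L ∧ b ≤ a}.Countable)
    (hL2 : ∀ a ∈ L, {b | b ∈ L ∧ ¬ P (x a) (x b)}.Countable) (n : ℕ) :
    ∀ M ⊆ L, ¬ M.Countable →
      ∃ Z : Finset K, Z.card = n ∧ ↑Z ⊆ M ∧
        ∀ a ∈ Z, ∀ b ∈ Z, a < b → P (x a) (x b) ∧ r a < r b := by
  classical
  induction n with
  | zero => exact fun M _ _ => ⟨∅, rfl, by simp, by simp⟩
  | succ n ih =>
    intro M hML hM
    obtain ⟨a, haM, ha⟩ := exists_many_above r hr M hM
    have haL := hML haM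
    let M' : Set K := {b | (b ∈ M ∧ r a < r b) ∧ ¬ (b ∈ L ∧ b ≤ a) ∧ ¬ (b ∈ L ∧ ¬ P (x a) (x b))}
    have hM' : ¬ M'.Countable := by
      intro hc
      apply ha
      refine ((hc.union (hL1 a haL)).union (hL2 a haL)).mono ?_
      intro b hb
      by_cases h1 : b ∈ L ∧ b ≤ a
      · exact Or.inl (Or.inr h1)
      · by_cases h2 : b ∈ L ∧ ¬ P (x a) (x b)
        · exact Or.inr h2
        · exact Or.inl (Or.inl ⟨hb, h1, h2⟩)
    have hM'L : M' ⊆ L := fun b hb => hML hb.1.1
    obtain ⟨Z, hZc, hZM, hZ⟩ := ih M' hM'L hM'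
    have haZ : ∀ b ∈ Z, a < b ∧ P (x a) (x b) ∧ r a < r b := by
      intro b hb
      have hb' := hZM hb
      have hbL := hM'L hb'
      refine ⟨?_, ?_, hb'.1.2⟩
      · by_contra hlt
        push Not at hlt
        exact hb'.2.1 ⟨hbL, hlt⟩
      · by_contra hP
        exact hb'.2.2 ⟨hbL, hP⟩
    have haZ' : a ∉ Z := fun h => lt_irrefl a (haZ a h).1
    refine ⟨insert a Z, by rw [Finset.card_insert_of_notMem haZ', hZc], ?_, ?_⟩
    · intro b hb
      rw [Finset.coe_insert] at hb
      rcases hb with hb | hb
      · rw [hb]; exact haM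
      · exact (hZM hb).1.1
    · intro b hb c hc hbc
      rw [Finset.mem_insert] at hb hc
      rcases hb with rfl | hb <;> rcases hc with rfl | hc
      · exact absurd hbc (lt_irrefl _)
      · exact (haZ c hc).2
      · exact absurd hbc (lt_asymm (haZ b hb).1)
      · exact hZ b hb c hc hbc

omit [WellFoundedLT K] in
/-- Finite combs in a splitting set, with prescribed direction. -/
lemma exists_finite_comb (P : (K → Bool) → (K → Bool) → Prop) [IsWellOrder (K → Bool) P]
    (A : Set (K → Bool)) (hA : ∀ a ∈ A, {x | x ∈ A ∧ P x a}.Countable) (hS : Splits A)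
    (e : Bool) (n : ℕ) :
    ∀ (b : K → Bool) (k : K), ¬ (N A b k).Countable →
      ∃ Y : Finset (K → Bool), Y.card = n ∧ ↑Y ⊆ N A b k ∧
        ∀ x ∈ Y, ∀ y ∈ Y, ∀ k₁, Sp e k₁ x y → P y x ∧
          ∀ z ∈ Y, ∀ k₂, Sp e k₂ y z → k₁ < k₂ := by
  classical
  induction n with
  | zero => exact fun b k _ => ⟨∅, rfl, by simp, by simp⟩
  | succ n ih =>
    intro b k hbig
    obtain ⟨c, l, hkl, hcb, hc⟩ := hS b k hbig
    obtain ⟨Y, hYc, hYN, hY⟩ := ih (Function.update c l (!e)) l (hc (!e))
    -- choose the new point above all old ones in the well-order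
    have hbad : (⋃ y ∈ (Y : Set (K → Bool)), {x | x ∈ A ∧ ¬ P y x}).Countable := by
      refine Y.countable_toSet.biUnion (fun y hy => ?_)
      have hyA : y ∈ A := (hYN hy).1
      refine ((hA y hyA).union (Set.countable_singleton y)).mono ?_
      intro x hx
      rcases trichotomous_of P x y with h | h | h
      · exact Or.inl ⟨hx.1, h⟩
      · exact Or.inr h
      · exact absurd h hx.2
    obtain ⟨a, haN, ha⟩ : ∃ a ∈ N A (Function.update c l e) l, ∀ y ∈ Y, P y a := by
      by_contra hcon
      push Not at hcon
      apply hc e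
      refine hbad.mono ?_
      intro x hx
      obtain ⟨y, hy, hyx⟩ := hcon x hx
      exact Set.mem_biUnion (show y ∈ (Y : Set (K → Bool)) from hy) ⟨hx.1, hyx⟩
    have haY : a ∉ Y := fun h => irrefl_of P a (ha a h)
    have haSp : ∀ y ∈ Y, Sp e l a y := by
      intro y hy
      have hy' := hYN hy
      refine ⟨?_, ?_, ?_⟩
      · intro j hj
        rw [haN.2 j hj.le, hy'.2 j hj.le, Function.update_of_ne hj.ne, Function.update_of_ne hj.ne]
      · rw [haN.2 l le_rfl, Function.update_self]
      · rw [hy'.2 l le_rfl, Function.update_self]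
    refine ⟨insert a Y, by rw [Finset.card_insert_of_notMem haY, hYc], ?_, ?_⟩
    · intro x hx
      rw [Finset.coe_insert] at hx
      have key : ∀ e' : Bool, ∀ x ∈ N A (Function.update c l e') l, x ∈ N A b k := by
        intro e' x hx
        refine ⟨hx.1, fun j hj => ?_⟩
        have hjl : j < l := hj.trans_lt hkl
        rw [hx.2 j hjl.le, Function.update_of_ne hjl.ne]
        exact hcb j hj
      rcases hx with hx | hx
      · rw [hx]; exact key e a haN
      · exact key (!e) x (hYN hx)
    · intro x hx y hy k₁ h1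
      rw [Finset.mem_insert] at hx hy
      rcases hx with rfl | hx
      · rcases hy with rfl | hy
        · exact absurd h1 sp_irrefl
        · refine ⟨ha y hy, ?_⟩
          have hk1 : k₁ = l := sp_unique h1 (haSp y hy)
          intro z hz k₂ h2
          rw [Finset.mem_insert] at hz
          rcases hz with rfl | hz
          · exact absurd (haSp y hy) (fun h => sp_asymm h h2)
          · by_contra hle
            push Not at hle
            rw [hk1] at hle
            have e1 := (hYN hy).2 k₂ hle
            have e2 := (hYN hz).2 k₂ hle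
            have e3 := h2.2.1
            have e4 := h2.2.2
            rw [e1] at e3
            rw [e2, e3] at e4
            cases e <;> simp at e4
      · rcases hy with rfl | hy
        · exact absurd (haSp x hx) (fun h => sp_asymm h h1)
        · obtain ⟨h2, h3⟩ := hY x hx y hy k₁ h1
          refine ⟨h2, ?_⟩
          intro z hz k₂ h4
          rw [Finset.mem_insert] at hz
          rcases hz with rfl | hz
          · exact absurd (haSp y hy) (fun h => sp_asymm h h4)
          · exact h3 z hz k₂ h4

/-- The main combinatorial statement. -/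
lemma core (P : (K → Bool) → (K → Bool) → Prop) [IsWellOrder (K → Bool) P] (r : K → ℝ)
    (hr : Function.Injective r) (A : Set (K → Bool)) (hA : ¬ A.Countable) (i : Fin 2) (n : ℕ) :
    ∃ Y : Finset (K → Bool), Y.card = n ∧ ↑Y ⊆ A ∧
      ∀ t ⊆ Y, t.card = 3 → col P r t = i := by
  classical
  obtain ⟨A', hA'A, hA', hgood⟩ := exists_good P A hA
  suffices hsuff : ∃ Y : Finset (K → Bool), Y.card = n ∧ ↑Y ⊆ A' ∧
      ∀ t ⊆ Y, t.card = 3 → col P r t = i by
    obtain ⟨Y, h1, h2, h3⟩ := hsuff
    exact ⟨Y, h1, h2.trans hA'A, h3⟩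
  by_cases hS : Splits A'
  · -- a big root
    obtain ⟨b, k, hbk⟩ : ∃ (b : K → Bool) (k : K), ¬ (N A' b k).Countable := by
      have hKne : (Set.univ : Set K).Nonempty := by
        by_contra hcon
        rw [Set.not_nonempty_iff_eq_empty, Set.univ_eq_empty_iff] at hcon
        apply hA'
        apply Set.Subsingleton.countable
        intro x _ y _
        funext k
        exact (hcon.false k).elim
      set k := WellFounded.min (wellFounded_lt (α := K)) _ hKne with hk
      have hmin : ∀ j ≤ k, j = k := by
        intro j hj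
        have : ¬ j < k := by
          rw [hk]
          exact WellFounded.not_lt_min (wellFounded_lt (α := K)) Set.univ (x := j) (Set.mem_univ j)
        exact le_antisymm hj (not_lt.1 this)
      by_contra hcon
      push Not at hcon
      apply hA'
      refine ((hcon (fun _ => true) k).union (hcon (fun _ => false) k)).mono ?_
      intro x hx
      cases hxk : x k with
      | true => exact Or.inl ⟨hx, fun j hj => by rw [hmin j hj, hxk]⟩
      | false => exact Or.inr ⟨hx, fun j hj => by rw [hmin j hj, hxk]⟩
    by_cases hi : i = 0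
    · obtain ⟨Y, hYc, hYN, hY⟩ := exists_finite_comb P A' hgood hS false n b k hbk
      refine ⟨Y, hYc, fun y hy => (hYN hy).1, fun t ht _ => ?_⟩
      rw [hi]
      refine hom0 P r Y ?_ t ht
      rintro x hx y hy z hz ⟨k₁, l, hkl, ⟨e, h1, h2, h3, h4, -⟩ | ⟨h1, h2, h3, h4⟩⟩
      · cases e with
        | false => exact asymm_of P h3 (hY x hx y hy k₁ h1).1
        | true =>
          have h5 : Sp false l z y := by simpa using sp_flip h2
          have h6 : Sp false k₁ y x := by simpa using sp_flip h1
          exact lt_asymm hkl ((hY z hz y hy l h5).2 x hx k₁ h6)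
      · have h5 : Sp false l z y := by simpa using sp_flip h2
        have h6 : Sp false k₁ y x := by simpa using sp_flip h1
        exact lt_asymm hkl ((hY z hz y hy l h5).2 x hx k₁ h6)
    · have hi1 : i = 1 := by
        rcases i with ⟨_ | _ | m, hm⟩
        · exact absurd rfl hi
        · rfl
        · omega
      obtain ⟨Y, hYc, hYN, hY⟩ := exists_finite_comb P A' hgood hS true n b k hbk
      refine ⟨Y, hYc, fun y hy => (hYN hy).1, fun t ht htc => ?_⟩
      obtain ⟨x, y, z, rfl, k₁, l, h1, h2⟩ := sort_lex t htc
      have hx : x ∈ Y := ht (by simp)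
      have hy : y ∈ Y := ht (by simp)
      have hz : z ∈ Y := ht (by simp)
      have h3 : Sp true k₁ y x := by simpa using sp_flip h1
      have h4 : Sp true l z y := by simpa using sp_flip h2
      obtain ⟨h5, h6⟩ := hY z hz y hy l h4
      have h7 := h6 x hx k₁ h3
      obtain ⟨h8, -⟩ := hY y hy x hx k₁ h3
      have hperm : ({x, y, z} : Finset (K → Bool)) = {z, y, x} := by
        ext w; simp only [Finset.mem_insert, Finset.mem_singleton]; tauto
      rw [hi1, hperm]
      exact col_one P r ⟨l, k₁, h7, Or.inr ⟨h4, h3, h5, h8⟩⟩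
  · obtain ⟨b, L, x, hL, hx⟩ := exists_comb A' hS
    -- make the direction constant
    obtain ⟨e, L1, hL1L, hL1, hdir⟩ : ∃ (e : Bool) (L1 : Set K), L1 ⊆ L ∧ ¬ L1.Countable ∧
        ∀ l ∈ L1, x l l = e := by
      by_cases h : {l | l ∈ L ∧ x l l = true}.Countable
      · refine ⟨false, {l | l ∈ L ∧ x l l = false}, fun l hl => hl.1, ?_, fun l hl => hl.2⟩
        intro h'
        apply hL
        refine (h.union h').mono ?_
        intro l hl
        cases hxl : x l l with
        | true => exact Or.inl ⟨hl, hxl⟩
        | false => exact Or.inr ⟨hl, hxl⟩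
      · exact ⟨true, {l | l ∈ L ∧ x l l = true}, fun l hl => hl.1, h, fun l hl => hl.2⟩
    obtain ⟨L2, hL2L, hL2, hgood2⟩ := exists_good (α := K) (· < ·) L1 hL1
    have hxL2 : ∀ l ∈ L2, x l ∈ A' ∧ (∀ j < l, x l j = b j) ∧ x l l = e ∧ b l = !e := by
      intro l hl
      obtain ⟨h1, h2, h3⟩ := hx l (hL1L (hL2L hl))
      have h4 := hdir l (hL2L hl)
      refine ⟨h1, h2, h4, ?_⟩
      rw [h4] at h3
      exact bool_not h3.symm
    have hSp : ∀ a ∈ L2, ∀ c ∈ L2, a < c → Sp e a (x a) (x c) := by
      intro a ha c hc hac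
      obtain ⟨-, h2, h3, h4⟩ := hxL2 a ha
      obtain ⟨-, h2', -, -⟩ := hxL2 c hc
      exact ⟨fun j hj => (h2 j hj).trans (h2' j (hj.trans hac)).symm, h3, (h2' a hac).trans h4⟩
    have hinj : Set.InjOn x L2 := by
      intro a ha c hc hac
      rcases lt_trichotomy a c with h | h | h
      · have := hSp a ha c hc h
        rw [hac] at this
        exact absurd this sp_irrefl
      · exact h
      · have := hSp c hc a ha h
        rw [hac] at this
        exact absurd this sp_irrefl
    have hc1 : ∀ a ∈ L2, {c | c ∈ L2 ∧ c ≤ a}.Countable := by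
      intro a ha
      refine ((hgood2 a ha).union (Set.countable_singleton a)).mono ?_
      rintro c ⟨h1, h2⟩
      rcases lt_or_eq_of_le h2 with h | h
      · exact Or.inl ⟨h1, h⟩
      · exact Or.inr h
    have hc2 : ∀ a ∈ L2, {c | c ∈ L2 ∧ ¬ P (x a) (x c)}.Countable := by
      intro a ha
      have h1 : ({y | y ∈ A' ∧ P y (x a)} ∪ {x a}).Countable :=
        (hgood (x a) (hxL2 a ha).1).union (Set.countable_singleton _)
      have h2 : Set.MapsTo x {c | c ∈ L2 ∧ ¬ P (x a) (x c)}
          ({y | y ∈ A' ∧ P y (x a)} ∪ {x a}) := by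
        rintro c ⟨h3, h4⟩
        rcases trichotomous_of P (x c) (x a) with h | h | h
        · exact Or.inl ⟨(hxL2 c h3).1, h⟩
        · exact Or.inr h
        · exact absurd h h4
      have h5 : Set.InjOn x {c | c ∈ L2 ∧ ¬ P (x a) (x c)} := hinj.mono (fun c hc => hc.1)
      exact Set.MapsTo.countable_of_injOn h2 h5 h1
    by_cases hi : i = 0
    · obtain ⟨Z, hZc, hZM, hZ⟩ := exists_increasing P (fun k => - r k)
        (fun a c hac => hr (neg_injective hac)) x L2 hc1 hc2 n L2 le_rfl hL2
      have hZinj : Set.InjOn x (Z : Set K) := hinj.mono hZM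
      refine ⟨Z.image x, by rw [Finset.card_image_of_injOn hZinj, hZc], ?_, fun t ht _ => ?_⟩
      · intro y hy
        rw [Finset.coe_image] at hy
        obtain ⟨a, ha, rfl⟩ := hy
        exact (hxL2 a (hZM ha)).1
      · rw [hi]
        refine hom0 P r _ ?_ t ht
        intro p hp q hq s hs
        obtain ⟨a, ha, rfl⟩ := Finset.mem_image.1 hp
        obtain ⟨c, hc, rfl⟩ := Finset.mem_image.1 hq
        obtain ⟨d, hd, rfl⟩ := Finset.mem_image.1 hs
        -- reading positions from the splitting data
        have read : ∀ (a c : K), a ∈ Z → c ∈ Z → ∀ (e' : Bool) (k : K), Sp e' k (x a) (x c) →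
            (e' = e ∧ a < c ∧ k = a) ∨ (e' = !e ∧ c < a ∧ k = c) := by
          intro a c ha hc e' k hk
          rcases lt_trichotomy a c with h | h | h
          · left
            have h1 := hSp a (hZM ha) c (hZM hc) h
            by_cases he : e' = e
            · subst he
              exact ⟨rfl, h, sp_unique hk h1⟩
            · exfalso
              have h2 := sp_flip hk
              have he2 : (!e') = e := by
                cases e' <;> cases e <;> simp at he <;> rfl
              rw [he2] at h2
              exact sp_asymm h1 h2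
          · subst h
            exact absurd hk sp_irrefl
          · right
            have h1 := hSp c (hZM hc) a (hZM ha) h
            have h2 := sp_flip hk
            by_cases he : (!e') = e
            · rw [he] at h2
              exact ⟨by rw [← he]; simp, h, sp_unique h2 h1⟩
            · exfalso
              have he2 : e' = e := by
                cases e' <;> cases e <;> simp at he <;> rfl
              rw [he2] at hk
              exact sp_asymm h1 hk
        rintro ⟨k, l, hkl, ⟨e', h1, h2, h3, h4, h5⟩ | ⟨h1, h2, h3, h4⟩⟩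
        · rcases read a c ha hc e' k h1 with ⟨g1, g2, g3⟩ | ⟨g1, g2, g3⟩
          · rcases read c d hc hd e' l h2 with ⟨g4, g5, g6⟩ | ⟨g4, g5, g6⟩
            · have := (hZ a ha c hc g2).2
              rw [g3, g6] at h5
              linarith
            · rw [g1] at g4
              cases e <;> simp at g4
          · rcases read c d hc hd e' l h2 with ⟨g4, g5, g6⟩ | ⟨g4, g5, g6⟩
            · rw [g4] at g1
              cases e <;> simp at g1
            · rw [g3, g6] at hkl
              exact lt_asymm hkl g5
        · rcases read a c ha hc true k h1 with ⟨g1, g2, g3⟩ | ⟨g1, g2, g3⟩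
          · exact asymm_of P h3 (hZ a ha c hc g2).1
          · rcases read c d hc hd true l h2 with ⟨g4, g5, g6⟩ | ⟨g4, g5, g6⟩
            · rw [← g4] at g1
              simp at g1
            · rw [g3, g6] at hkl
              exact lt_asymm hkl g5
    · have hi1 : i = 1 := by
        rcases i with ⟨_ | _ | m, hm⟩
        · exact absurd rfl hi
        · rfl
        · omega
      obtain ⟨Z, hZc, hZM, hZ⟩ := exists_increasing P r hr x L2 hc1 hc2 n L2 le_rfl hL2
      have hZinj : Set.InjOn x (Z : Set K) := hinj.mono hZM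
      refine ⟨Z.image x, by rw [Finset.card_image_of_injOn hZinj, hZc], ?_, fun t ht htc => ?_⟩
      · intro y hy
        rw [Finset.coe_image] at hy
        obtain ⟨a, ha, rfl⟩ := hy
        exact (hxL2 a (hZM ha)).1
      · obtain ⟨a, ha, c, hc, d, hd, hac, hcd, rfl⟩ := sort_index x Z t ht htc
        rw [hi1]
        exact col_one P r ⟨a, c, hac, Or.inl ⟨e, hSp a (hZM ha) c (hZM hc) hac,
          hSp c (hZM hc) d (hZM hd) hcd, (hZ a ha c hc hac).1, (hZ c hc d hd hcd).1,
          (hZ a ha c hc hac).2⟩⟩

end Core

/-- On a set of cardinality `2 ^ 2 ^ ℵ₀` the triples can be split into two classes so that every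
subset of cardinality `ℵ₁` contains, for each class and each `n`, an `n`-element set all of whose
triples lie in that class. -/
theorem result (S : Type u) (hS : #S = 2 ^ (2 ^ ℵ₀ : Cardinal.{u})) :
    ∃ c : Finset S → Fin 2, ∀ A : Set S, #A = ℵ₁ → ∀ (i : Fin 2) (n : ℕ),
      ∃ Y : Finset S, Y.card = n ∧ ↑Y ⊆ A ∧ ∀ t ⊆ Y, t.card = 3 → c t = i := by
  classical
  let K : Type u := (2 ^ ℵ₀ : Cardinal.{u}).ord.ToType
  have hK : #K = 2 ^ (ℵ₀ : Cardinal.{u}) := Cardinal.mk_ord_toType _
  have hSK : #S = #(K → Bool) := by
    rw [hS, Cardinal.mk_arrow, hK]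
    simp
  obtain ⟨φ⟩ := Cardinal.eq.1 hSK
  obtain ⟨r⟩ : Nonempty (K ↪ ℝ) := by
    rw [← Cardinal.lift_mk_le'.{u, 0}, hK, Cardinal.mk_real]
    simp
  refine ⟨fun t => col (K := K) WellOrderingRel r (t.image φ), ?_⟩
  intro A hA i n
  have hAu : ¬ (φ '' A).Countable := by
    rw [← Cardinal.le_aleph0_iff_set_countable, Cardinal.mk_image_eq φ.injective, hA, not_le]
    exact Cardinal.aleph0_lt_aleph_one
  obtain ⟨Y, hYc, hYA, hY⟩ := core (K := K) WellOrderingRel r r.injective (φ '' A) hAu i n
  refine ⟨Y.image φ.symm, ?_, ?_, ?_⟩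
  · rw [Finset.card_image_of_injective _ φ.symm.injective, hYc]
  · intro s hs
    rw [Finset.coe_image] at hs
    obtain ⟨y, hy, rfl⟩ := hs
    obtain ⟨a, ha, hay⟩ := hYA hy
    rw [← hay]
    simpa using ha
  · intro t ht htc
    refine hY (t.image φ) ?_ ?_
    · intro y hy
      obtain ⟨s, hs, rfl⟩ := Finset.mem_image.1 hy
      obtain ⟨y', hy', rfl⟩ := Finset.mem_image.1 (ht hs)
      simpa using hy'
    · rw [Finset.card_image_of_injective _ φ.injective, htc]

end Pool.Agent.Results.MP_dc3585_lc.BothClasses
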